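import Pool.Agent.Helper69.GE.Main2

/-! Sets with long runs of at most geometric decay, for example the set of all `2 ^ (-n)`, are not
measure-universal. -/

open MeasureTheory Set

namespace Pool.Agent.Results.MP_4d9215_an.GeometricDecay

/-- Let `E ⊆ ℝ^d` and `c > 0`, and suppose that for every `N` there are a point `p` and nonzero
vectors `v 0, …, v N` with `p + v i ∈ E` for `i ≤ N` and `c ‖v i‖ ≤ ‖v (i + 1)‖ ≤ ‖v i‖ / 2` for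
`i < N`. Then for every `η > 0` there is a compact set `K ⊆ [0, 1]^d` with `|[0, 1]^d ∖ K| ≤ η`
which contains no set `t + T(E)`, `T` an invertible linear map. -/
theorem result (d : ℕ) (E : Set (Fin d → ℝ)) (c : ℝ) (hc : 0 < c)
    (h : ∀ N : ℕ, ∃ (p : Fin d → ℝ) (v : ℕ → Fin d → ℝ), ∀ i ≤ N, v i ≠ 0 ∧ p + v i ∈ E ∧
      (i < N → c * ‖v i‖ ≤ ‖v (i + 1)‖ ∧ ‖v (i + 1)‖ ≤ ‖v i‖ / 2))
    (η : ℝ) (hη : 0 < η) :
    ∃ K : Set (Fin d → ℝ), K ⊆ Icc 0 1 ∧ IsCompact K ∧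
      volume (Icc (0 : Fin d → ℝ) 1 \ K) ≤ ENNReal.ofReal η ∧
      ∀ (t : Fin d → ℝ) (T : (Fin d → ℝ) ≃ₗ[ℝ] (Fin d → ℝ)), ¬ ∀ v ∈ E, t + T v ∈ K := by
  obtain ⟨K, hK, hKc, hKv, hKE⟩ := Pool.Agent.Helper69.GE.main2 hc h hη
  refine ⟨K, hK, hKc, hKv, fun t T hcon => ?_⟩
  obtain ⟨v, hv, hvK⟩ := hKE t T
  exact hvK (hcon v hv)

end Pool.Agent.Results.MP_4d9215_an.GeometricDecay
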